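import Pool.Agent.K6.H33.NT.Stm

/-!
# Piece LB of call33 (volunteer: helper35)

A functional equation of a homogeneous polynomial with formal power series coefficients gives one
with the same `b` in the Weyl algebra: take homogeneous components.
-/

set_option autoImplicit false

namespace Pool.Agent.K6.H35.NT

open MvPolynomial Pool.Agent.H628R4.TP

variable {σ : Type} [Fintype σ]

/-- The homogeneous component of degree `D` of a power series, as a polynomial. -/
noncomputable def hc (D : ℕ) (g : MvPowerSeries σ ℂ) : MvPolynomial σ ℂ :=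
  ∑ e ∈ (Finsupp.finite_of_degree_le (σ := σ) D).toFinset,
    if e.degree = D then monomial e (MvPowerSeries.coeff e g) else 0

theorem coeff_hc (D : ℕ) (g : MvPowerSeries σ ℂ) (e : σ →₀ ℕ) :
    coeff e (hc D g) = if e.degree = D then MvPowerSeries.coeff e g else 0 := by
  classical
  unfold hc
  rw [coeff_sum]
  by_cases h : e.degree = D
  · rw [if_pos h, Finset.sum_eq_single e]
    · rw [if_pos h, coeff_monomial, if_pos rfl]
    · intro e' _ he'
      split_ifs with h'
      · rw [coeff_monomial, if_neg he']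
      · simp
    · intro he
      refine absurd ?_ he
      rw [Set.Finite.mem_toFinset]
      exact h.le
  · rw [if_neg h]
    refine Finset.sum_eq_zero fun e' _ => ?_
    split_ifs with h'
    · rw [coeff_monomial, if_neg]
      rintro rfl
      exact h h'
    · simp

theorem hc_add (D : ℕ) (g g' : MvPowerSeries σ ℂ) : hc D (g + g') = hc D g + hc D g' := by
  ext e
  simp only [coeff_add, coeff_hc, map_add]
  split_ifs <;> simp

theorem hc_zero (D : ℕ) : hc D (0 : MvPowerSeries σ ℂ) = 0 := by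
  ext e
  simp [coeff_hc]

theorem hc_sum (D : ℕ) {ι : Type} (s : Finset ι) (g : ι → MvPowerSeries σ ℂ) :
    hc D (∑ i ∈ s, g i) = ∑ i ∈ s, hc D (g i) := by
  classical
  induction s using Finset.induction_on with
  | empty => simp [hc_zero]
  | insert a s ha ih => rw [Finset.sum_insert ha, Finset.sum_insert ha, hc_add, ih]

theorem hc_C_mul (D : ℕ) (c : ℂ) (g : MvPowerSeries σ ℂ) :
    hc D (MvPowerSeries.C c * g) = c • hc D g := by
  ext e
  rw [coeff_smul, coeff_hc, coeff_hc, MvPowerSeries.coeff_C_mul]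
  split_ifs <;> simp

theorem hc_coe (D : ℕ) {q : MvPolynomial σ ℂ} (hq : q.IsHomogeneous D) :
    hc D (q : MvPowerSeries σ ℂ) = q := by
  ext e
  rw [coeff_hc, coeff_coe]
  split_ifs with h
  · rfl
  · exact (hq.coeff_eq_zero h).symm

theorem hc_mul_coe (D k : ℕ) (a : MvPowerSeries σ ℂ) {q : MvPolynomial σ ℂ}
    (hq : q.IsHomogeneous k) :
    hc D (a * (q : MvPowerSeries σ ℂ)) = if k ≤ D then hc (D - k) a * q else 0 := by
  classical
  ext e
  rw [coeff_hc, MvPowerSeries.coeff_mul]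
  have hdeg : ∀ p ∈ Finset.HasAntidiagonal.antidiagonal e, p.1.degree + p.2.degree = e.degree := by
    intro p hp
    have hp' : p.1 + p.2 = e := Finset.HasAntidiagonal.mem_antidiagonal.mp hp
    rw [← hp', map_add]
  split_ifs with h1 h2 h2
  · rw [coeff_mul]
    refine Finset.sum_congr rfl fun p hp => ?_
    rw [coeff_coe, coeff_hc]
    by_cases h3 : p.2.degree = k
    · have := hdeg p hp
      rw [if_pos (by omega)]
    · rw [hq.coeff_eq_zero h3, mul_zero, mul_zero]
  · rw [coeff_zero]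
    refine Finset.sum_eq_zero fun p hp => ?_
    have := hdeg p hp
    rw [coeff_coe, hq.coeff_eq_zero (by omega), mul_zero]
  · rw [coeff_mul]
    refine (Finset.sum_eq_zero fun p hp => ?_).symm
    have := hdeg p hp
    by_cases h3 : p.2.degree = k
    · rw [coeff_hc, if_neg (by omega), zero_mul]
    · rw [hq.coeff_eq_zero h3, mul_zero]
  · simp

/-- The operator `Q` has degree `j`. -/
def Deg (j : ℤ) (Q : Module.End ℂ (MvPolynomial σ ℂ)) : Prop :=
  ∀ (n : ℕ) (p : MvPolynomial σ ℂ), p.IsHomogeneous n →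
    (0 ≤ n + j → (Q p).IsHomogeneous (n + j).toNat) ∧ (n + j < 0 → Q p = 0)

theorem Deg.one : Deg 0 (1 : Module.End ℂ (MvPolynomial σ ℂ)) := by
  intro n p hp
  refine ⟨fun _ => ?_, fun h => by omega⟩
  simpa using hp

theorem Deg.mul {j k : ℤ} {Q R : Module.End ℂ (MvPolynomial σ ℂ)} (hQ : Deg j Q) (hR : Deg k R) :
    Deg (j + k) (Q * R) := by
  intro n p hp
  obtain ⟨h1, h2⟩ := hR n p hp
  rcases lt_or_ge ((n : ℤ) + k) 0 with h | h
  · have h3 : (Q * R) p = 0 := by
      rw [Module.End.mul_apply, h2 h, map_zero]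
    rw [h3]
    exact ⟨fun _ => isHomogeneous_zero _ _ _, fun _ => rfl⟩
  · obtain ⟨h4, h5⟩ := hQ _ _ (h1 h)
    rw [Module.End.mul_apply]
    have h6 : (((n : ℤ) + k).toNat : ℤ) + j = n + (j + k) := by
      rw [Int.toNat_of_nonneg h]
      ring
    rw [h6] at h4 h5
    exact ⟨h4, h5⟩

theorem Deg.X (i : σ) : Deg 1 (LinearMap.mulLeft ℂ (MvPolynomial.X i : MvPolynomial σ ℂ)) := by
  intro n p hp
  refine ⟨fun _ => ?_, fun h => by omega⟩
  have h := (isHomogeneous_X ℂ i).mul hp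
  have h1 : ((n : ℤ) + 1).toNat = 1 + n := by omega
  rw [h1]
  simpa using h

theorem Deg.pderiv (i : σ) : Deg (-1) (((MvPolynomial.pderiv i : Derivation ℂ (MvPolynomial σ ℂ)
    (MvPolynomial σ ℂ)) : MvPolynomial σ ℂ →ₗ[ℂ] MvPolynomial σ ℂ)) := by
  intro n p hp
  constructor
  · intro h
    have h1 : ((n : ℤ) + -1).toNat = n - 1 := by omega
    rw [h1]
    exact hp.pderiv
  · intro h
    have h1 : n = 0 := by omega
    subst h1
    have h2 : p = C (coeff 0 p) := by
      rw [← totalDegree_eq_zero_iff_eq_C]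
      exact (totalDegree_zero_iff_isHomogeneous _).mpr hp
    rw [h2]
    simp

/-- The generators of the Weyl algebra. -/
def gen (σ : Type) : Set (Module.End ℂ (MvPolynomial σ ℂ)) :=
  Set.range (fun i => LinearMap.mulLeft ℂ (MvPolynomial.X i : MvPolynomial σ ℂ)) ∪
    Set.range (fun i => ((MvPolynomial.pderiv i : Derivation ℂ (MvPolynomial σ ℂ)
      (MvPolynomial σ ℂ)) : MvPolynomial σ ℂ →ₗ[ℂ] MvPolynomial σ ℂ))

theorem exists_deg {Q : Module.End ℂ (MvPolynomial σ ℂ)}
    (hQ : Q ∈ Submonoid.closure (gen σ)) : ∃ j, Deg j Q := by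
  induction hQ using Submonoid.closure_induction with
  | mem x hx =>
    rcases hx with ⟨i, rfl⟩ | ⟨i, rfl⟩
    · exact ⟨_, Deg.X i⟩
    · exact ⟨_, Deg.pderiv i⟩
  | one => exact ⟨_, Deg.one⟩
  | mul x y _ _ hx hy =>
    obtain ⟨j, hj⟩ := hx
    obtain ⟨k, hk⟩ := hy
    exact ⟨_, hj.mul hk⟩

theorem mulLeft_mem (A : MvPolynomial σ ℂ) : LinearMap.mulLeft ℂ A ∈ weylS σ := by
  induction A using MvPolynomial.induction_on with
  | C c =>
    have h : LinearMap.mulLeft ℂ (C c : MvPolynomial σ ℂ) =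
        algebraMap ℂ (Module.End ℂ (MvPolynomial σ ℂ)) c := by
      ext p
      simp [Algebra.algebraMap_eq_smul_one, C_mul']
    rw [h]
    exact (weylS σ).algebraMap_mem c
  | add p q hp hq =>
    have h : LinearMap.mulLeft ℂ (p + q) = LinearMap.mulLeft ℂ p + LinearMap.mulLeft ℂ q := by
      ext r
      simp [add_mul]
    rw [h]
    exact (weylS σ).add_mem hp hq
  | mul_X p i hp =>
    rw [LinearMap.mulLeft_mul]
    exact (weylS σ).mul_mem hp (Algebra.subset_adjoin (Or.inl ⟨i, rfl⟩))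

/-- `g s = ∑ s ^ m P_m (f ^ (s + 1))`. -/
def Good (f : MvPolynomial σ ℂ) (g : ℕ → MvPolynomial σ ℂ) : Prop :=
  ∃ P : ℕ →₀ weylS σ, ∀ s : ℕ, g s =
    P.sum fun m Q => ((s : ℂ) ^ m) • (Q : Module.End ℂ (MvPolynomial σ ℂ)) (f ^ (s + 1))

theorem Good.zero (f : MvPolynomial σ ℂ) : Good f fun _ => 0 := ⟨0, fun s => by simp⟩

theorem Good.add {f : MvPolynomial σ ℂ} {g g' : ℕ → MvPolynomial σ ℂ} (h : Good f g)
    (h' : Good f g') : Good f fun s => g s + g' s := by
  obtain ⟨P, hP⟩ := h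
  obtain ⟨P', hP'⟩ := h'
  refine ⟨P + P', fun s => ?_⟩
  rw [Finsupp.sum_add_index' (fun m => by simp) (fun m Q Q' => by simp [smul_add]), ← hP, ← hP']

theorem Good.sum {f : MvPolynomial σ ℂ} {ι : Type} (S : Finset ι) {g : ι → ℕ → MvPolynomial σ ℂ}
    (h : ∀ i, Good f (g i)) : Good f fun s => ∑ i ∈ S, g i s := by
  classical
  induction S using Finset.induction_on with
  | empty => simpa using Good.zero f
  | insert a S ha ih =>
    have h1 := (h a).add ih
    simpa [Finset.sum_insert ha] using h1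

/-- A homogeneous operator. -/
theorem good_deg {f : MvPolynomial σ ℂ} {d : ℕ} (hf : f.IsHomogeneous d) (m : ℕ)
    (a : MvPowerSeries σ ℂ) {j : ℤ} (Q : weylS σ) (hQ : Deg j (Q : Module.End ℂ (MvPolynomial σ ℂ))) :
    Good f fun s => (s : ℂ) ^ m • hc (d * s) (a * (((Q : Module.End ℂ (MvPolynomial σ ℂ))
      (f ^ (s + 1)) : MvPolynomial σ ℂ) : MvPowerSeries σ ℂ)) := by
  let A : MvPolynomial σ ℂ := if (d : ℤ) + j ≤ 0 then hc (-(d + j)).toNat a else 0
  let AQ : weylS σ := ⟨LinearMap.mulLeft ℂ A, mulLeft_mem A⟩ * Q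
  refine ⟨Finsupp.single m AQ, fun s => ?_⟩
  rw [Finsupp.sum_single_index (by simp)]
  change (s : ℂ) ^ m • hc (d * s) (a * (((Q : Module.End ℂ (MvPolynomial σ ℂ))
      (f ^ (s + 1)) : MvPolynomial σ ℂ) : MvPowerSeries σ ℂ)) =
    (s : ℂ) ^ m • (AQ : Module.End ℂ (MvPolynomial σ ℂ)) (f ^ (s + 1))
  congr 1
  have h1 : (AQ : Module.End ℂ (MvPolynomial σ ℂ)) (f ^ (s + 1)) =
      A * (Q : Module.End ℂ (MvPolynomial σ ℂ)) (f ^ (s + 1)) := by
    simp [AQ]
  rw [h1]
  obtain ⟨h2, h3⟩ := hQ _ _ (hf.pow (s + 1))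
  have h0 : ((d * (s + 1) : ℕ) : ℤ) = d * s + d := by push_cast; ring
  rw [h0] at h2 h3
  rcases lt_or_ge ((d : ℤ) * s + d + j) 0 with h | h
  · rw [h3 h, coe_zero, mul_zero, mul_zero, hc_zero]
  · have h4 := h2 h
    rw [hc_mul_coe _ _ _ h4]
    by_cases h5 : (d : ℤ) + j ≤ 0
    · have h6 : ((d : ℤ) * s + d + j).toNat ≤ d * s := by
        rw [Int.toNat_le]
        push_cast
        linarith
      rw [if_pos h6]
      have h7 : d * s - ((d : ℤ) * s + d + j).toNat = (-((d : ℤ) + j)).toNat := by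
        zify [h6]
        rw [Int.toNat_of_nonneg h, Int.toNat_of_nonneg (by omega)]
        ring
      rw [h7]
      simp only [A, if_pos h5]
    · have h6 : ¬ ((d : ℤ) * s + d + j).toNat ≤ d * s := by
        intro h7
        rw [Int.toNat_le] at h7
        push_cast at h7
        omega
      rw [if_neg h6]
      simp only [A, if_neg h5, zero_mul]

theorem weylS_eq : Subalgebra.toSubmodule (weylS σ) =
    Submodule.span ℂ (Submonoid.closure (gen σ) : Set (Module.End ℂ (MvPolynomial σ ℂ))) :=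
  Algebra.adjoin_eq_span ℂ (gen σ)

/-- Any operator of the Weyl algebra. -/
theorem good_weyl {f : MvPolynomial σ ℂ} {d : ℕ} (hf : f.IsHomogeneous d) (m : ℕ)
    (a : MvPowerSeries σ ℂ) (Q : Module.End ℂ (MvPolynomial σ ℂ)) (hQ : Q ∈ weylS σ) :
    Good f fun s => (s : ℂ) ^ m • hc (d * s) (a * ((Q (f ^ (s + 1)) : MvPolynomial σ ℂ) :
      MvPowerSeries σ ℂ)) := by
  have h : Q ∈ Submodule.span ℂ (Submonoid.closure (gen σ) :
      Set (Module.End ℂ (MvPolynomial σ ℂ))) := by
    rw [← weylS_eq]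
    exact hQ
  clear hQ
  induction h using Submodule.span_induction with
  | mem x hx =>
    obtain ⟨j, hj⟩ := exists_deg hx
    have hQ : x ∈ weylS σ := by
      have : x ∈ Subalgebra.toSubmodule (weylS σ) := by
        rw [weylS_eq]
        exact Submodule.subset_span hx
      exact this
    exact good_deg hf m a ⟨x, hQ⟩ hj
  | zero =>
    have h0 : (fun s : ℕ => (s : ℂ) ^ m • hc (d * s) (a * (((0 : Module.End ℂ (MvPolynomial σ ℂ))
        (f ^ (s + 1)) : MvPolynomial σ ℂ) : MvPowerSeries σ ℂ))) = fun _ => 0 := by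
      funext s
      rw [LinearMap.zero_apply, coe_zero, mul_zero, hc_zero, smul_zero]
    rw [h0]
    exact Good.zero f
  | add x y hx hy ihx ihy =>
    have h0 := ihx.add ihy
    refine (congrArg (Good f) ?_).mp h0
    funext s
    rw [LinearMap.add_apply, coe_add, mul_add, hc_add, smul_add]
  | smul c x hx ih =>
    obtain ⟨P, hP⟩ := ih
    refine ⟨c • P, fun s => ?_⟩
    have h1 : ((((c • x) (f ^ (s + 1)) : MvPolynomial σ ℂ)) : MvPowerSeries σ ℂ) =
        MvPowerSeries.C c * ((x (f ^ (s + 1)) : MvPolynomial σ ℂ) : MvPowerSeries σ ℂ) := by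
      rw [LinearMap.smul_apply, smul_eq_C_mul, coe_mul, coe_C]
    change (s : ℂ) ^ m • hc (d * s) (a * ((((c • x) (f ^ (s + 1)) : MvPolynomial σ ℂ)) :
      MvPowerSeries σ ℂ)) = _
    rw [h1, mul_left_comm, hc_C_mul, smul_comm]
    have h2 : (s : ℂ) ^ m • hc (d * s) (a * (((x (f ^ (s + 1)) : MvPolynomial σ ℂ)) :
      MvPowerSeries σ ℂ)) = _ := hP s
    rw [h2, Finsupp.sum_smul_index' (fun m => by simp), Finsupp.smul_sum]
    refine Finsupp.sum_congr fun k _ => ?_
    rw [smul_comm]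
    rfl

/-- Piece LB. -/
theorem pieceL : Pool.Agent.K6.H33.NT.S_LB := by
  intro σ _ f d hf b hb
  obtain ⟨L, m, a, Q, h⟩ := hb
  obtain ⟨P, hP⟩ := Good.sum (f := f) (Finset.univ : Finset (Fin L))
    (g := fun i s => (s : ℂ) ^ m i • hc (d * s) (a i *
      (((Q i : Module.End ℂ (MvPolynomial σ ℂ)) (f ^ (s + 1)) : MvPolynomial σ ℂ) :
        MvPowerSeries σ ℂ))) (fun i => good_weyl hf (m i) (a i) _ (Q i).2)
  refine ⟨P, fun s => ?_⟩
  rw [← hP s]
  have h1 := congrArg (hc (d * s)) (h s)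
  rw [hc_sum, hc_C_mul, hc_coe _ (hf.pow s)] at h1
  rw [← smul_eq_C_mul, h1]
  exact Finset.sum_congr rfl fun i _ => hc_C_mul _ _ _

end Pool.Agent.K6.H35.NT
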